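import Pool.Agent.E8helper36.CF.Stm3

/-! Project CF36, piece NB. -/

set_option autoImplicit false

namespace Pool.Agent.E8helper71.CF

open Pool.Agent.E8helper36.CF

theorem t_NB : S_TOP → S_POT → S_NB := by
  intro hTOP hPOT n hn h3 M M' hM hcf hD
  obtain ⟨a, b, c, d, hab, hbc, hcd, h1, h2, h4, h5, hR | hR⟩ := hcf
  swap
  · exfalso
    have h6 := hM a
    rw [hR.ad] at h6
    omega
  have hab' : (a : ℕ) < b := hab
  have hbc' : (b : ℕ) < c := hbc
  have hcd' : (c : ℕ) < d := hcd
  have mb : M.m b = a := by rw [← hR.ab, M.inv]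
  have md : M.m d = c := by rw [← hR.cd, M.inv]
  have mc' : M'.m c = b := by rw [← hR.bc, M'.inv]
  have md' : M'.m d = a := by rw [← hR.ad, M'.inv]
  -- the diameter
  have hdia : (c : ℕ) = b + n ∨ (d : ℕ) = a + n := by
    obtain ⟨i, hi⟩ := hD
    by_cases ia : i = a
    · subst ia
      rw [hR.ad] at hi
      exact Or.inr hi
    by_cases ib : i = b
    · subst ib
      rw [hR.bc] at hi
      exact Or.inl hi
    by_cases ic : i = c
    · subst ic
      rw [mc'] at hi
      omega
    by_cases id : i = d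
    · subst id
      rw [md'] at hi
      omega
    · rw [hR.rest i ia ib ic id] at hi
      have := hM i
      omega
  -- partners outside of the quadrilateral
  have hout : ∀ j, j ≠ a → j ≠ b → j ≠ c → j ≠ d →
      M.m j ≠ a ∧ M.m j ≠ b ∧ M.m j ≠ c ∧ M.m j ≠ d ∧ M'.m j = M.m j := by
    intro j ja jb jc jd
    refine ⟨fun h => jb ?_, fun h => ja ?_, fun h => jd ?_, fun h => jc ?_, hR.rest j ja jb jc jd⟩
    · rw [← M.inv j, h, hR.ab]
    · rw [← M.inv j, h, mb]
    · rw [← M.inv j, h, hR.cd]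
    · rw [← M.inv j, h, md]
  have topa : Top M a := by
    intro j hj
    by_contra hc
    rw [not_lt] at hc
    have hj' : (j : ℕ) < a := hj
    obtain ⟨q1, q2, q3, q4, q5⟩ := hout j (Fin.ne_of_val_ne (by omega))
      (Fin.ne_of_val_ne (by omega)) (Fin.ne_of_val_ne (by omega)) (Fin.ne_of_val_ne (by omega))
    have haq : a < M.m j := lt_of_le_of_ne hc (Ne.symm q1)
    have h6 := M'.nc j a hj (by rw [q5]; exact haq)
    rw [q5, hR.ad, not_lt] at h6
    have h7 : (d : ℕ) ≤ M.m j := h6
    have h8 := hM j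
    omega
  have topc : Top M c := by
    intro j hj
    by_contra hc
    rw [not_lt] at hc
    have hj' : (j : ℕ) < c := hj
    have hc' : (c : ℕ) ≤ M.m j := hc
    have ja : j ≠ a := by
      rintro rfl
      rw [hR.ab] at hc'
      omega
    have jb : j ≠ b := by
      rintro rfl
      rw [mb] at hc'
      omega
    obtain ⟨q1, q2, q3, q4, q5⟩ := hout j ja jb (Fin.ne_of_val_ne (by omega))
      (Fin.ne_of_val_ne (by omega))
    have hcq : c < M.m j := lt_of_le_of_ne hc (Ne.symm q3)
    have hcq' : (c : ℕ) < M.m j := hcq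
    have ja' : (j : ℕ) ≠ a := fun h => ja (Fin.ext h)
    have jb' : (j : ℕ) ≠ b := fun h => jb (Fin.ext h)
    rcases lt_or_ge (j : ℕ) a with h6 | h6
    · have h7 : (M.m j : ℕ) < a := topa j h6
      omega
    · rcases lt_or_ge (j : ℕ) b with h7 | h7
      · have haj : a < j := by
          show (a : ℕ) < j
          omega
        have h8 := M.nc a j haj (by rw [hR.ab]; exact h7)
        rw [hR.ab] at h8
        apply h8
        show (b : ℕ) < M.m j
        omega
      · have hbj : b < j := by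
          show (b : ℕ) < j
          omega
        have h8 := M'.nc b j hbj (by rw [hR.bc]; exact hj)
        rw [hR.bc, q5] at h8
        exact h8 hcq
  obtain ⟨ta1, ta2, ta3⟩ := hTOP n M a topa
  obtain ⟨tc1, tc2, tc3⟩ := hTOP n M c topc
  rw [hR.ab] at ta3
  rw [hR.cd] at tc3
  have hb2 := b.2
  have hc2 := c.2
  have hd2 := d.2
  refine ⟨?_, ?_⟩
  · rcases hdia with h6 | h6
    · exact ⟨⟨b + 1, by omega⟩, c, ta3 _ rfl, topc, Or.inl (by simp only; omega)⟩
    · by_cases h7 : (d : ℕ) + 1 < 2 * n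
      · exact ⟨a, ⟨d + 1, h7⟩, topa, tc3 _ rfl, Or.inr (by simp only; omega)⟩
      · refine ⟨⟨0, by omega⟩, a, ?_, topa, Or.inl (by simp only; omega)⟩
        intro j hj
        have hj' : (j : ℕ) < 0 := hj
        omega
  · have h6 := (hPOT n hn M M' a b c d hab hbc hcd h1 h2 h4 h5 hR).1 (by
      rcases hdia with h7 | h7
      · exact Or.inr (Or.inl h7)
      · exact Or.inr (Or.inr (Or.inr h7)))
    rw [if_pos ta1] at h6
    omega

end Pool.Agent.E8helper71.CF
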